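import Pool.Agent.H94.LH.Stmts

/-!
# LH: the smallest of the three greatest prime factors
-/

set_option autoImplicit false

namespace Pool.LH

open Finset Pool.Agent.H98.ABCR Pool.SHA

theorem min_rad_mul {a b : ℕ} (h : a.Coprime b) : rad (a * b) = rad a * rad b := by
  unfold rad
  rw [h.primeFactors_mul, Finset.prod_union h.disjoint_primeFactors]

theorem min_rad_pos (n : ℕ) : 0 < rad n :=
  Finset.prod_pos fun _ hp => (Nat.prime_of_mem_primeFactors hp).pos

theorem min_gp_le (n : ℕ) : gp n ≤ rad n := by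
  unfold gp
  refine sup_le (Finset.sup_le fun p hp => ?_) (min_rad_pos n)
  exact Nat.le_of_dvd (min_rad_pos n) (Finset.dvd_prod_of_mem (fun p => p) hp)

theorem min_RR {v : ℕ × ℕ} (h : IsTri v) :
    RR v = rad (coord v 0) * rad (coord v 1) * rad (coord v 2) := by
  have h1 : v.1.Coprime (v.1 + v.2) := by
    rw [Nat.coprime_self_add_right]
    exact h.2.2
  have h2 : v.2.Coprime (v.1 + v.2) := by
    rw [Nat.coprime_add_self_right]
    exact h.2.2.symm
  unfold RR nn
  rw [min_rad_mul (Nat.Coprime.mul_left h1 h2), min_rad_mul h.2.2]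
  rfl

/-- The module MIN. -/
theorem min_thm : S_MIN := by
  intro v hv
  by_contra hcon
  push Not at hcon
  have h0 := hcon 0
  have h1 := hcon 1
  have h2 := hcon 2
  have hR : (RR v : ℝ) = rad (coord v 0) * rad (coord v 1) * rad (coord v 2) := by
    rw [min_RR hv]
    push_cast
    ring
  have g0 : (gp (coord v 0) : ℝ) ≤ rad (coord v 0) := by exact_mod_cast min_gp_le _
  have g1 : (gp (coord v 1) : ℝ) ≤ rad (coord v 1) := by exact_mod_cast min_gp_le _
  have g2 : (gp (coord v 2) : ℝ) ≤ rad (coord v 2) := by exact_mod_cast min_gp_le _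
  have p0 : (0 : ℝ) ≤ gp (coord v 0) := Nat.cast_nonneg _
  have p1 : (0 : ℝ) ≤ gp (coord v 1) := Nat.cast_nonneg _
  have p2 : (0 : ℝ) ≤ gp (coord v 2) := Nat.cast_nonneg _
  have hprod : (gp (coord v 0) : ℝ) * gp (coord v 1) * gp (coord v 2) ≤ RR v := by
    rw [hR]
    exact mul_le_mul (mul_le_mul g0 g1 p1 (p0.trans g0)) g2 p2
      (mul_nonneg (p0.trans g0) (p1.trans g1))
  have hRpos : (0 : ℝ) ≤ RR v := Nat.cast_nonneg _
  have h3 : (RR v : ℝ) ^ 3 < ((gp (coord v 0) : ℝ) * gp (coord v 1) * gp (coord v 2)) ^ 3 := by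
    calc (RR v : ℝ) ^ 3 = RR v * RR v * RR v := by ring
      _ < (gp (coord v 0) : ℝ) ^ 3 * (gp (coord v 1) : ℝ) ^ 3 * (gp (coord v 2) : ℝ) ^ 3 :=
        mul_lt_mul'' (mul_lt_mul'' h0 h1 hRpos hRpos) h2 (mul_nonneg hRpos hRpos) hRpos
      _ = _ := by ring
  exact absurd (pow_le_pow_left₀ (mul_nonneg (mul_nonneg p0 p1) p2) hprod 3) (not_le.mpr h3)

end Pool.LH
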