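import Pool.Agent.H94.LH.Stmts2
import Pool.Agent.H42.LH.MIN

/-!
# LH: the corollary LC2
-/

set_option autoImplicit false

namespace Pool.LH

open Finset Pool.Agent.H98.ABCR Pool.SHA

theorem lc2_coord_pos {v : ℕ × ℕ} (h : IsTri v) (i : Fin 3) : 0 < coord v i := by
  obtain ⟨h1, h2, _⟩ := h
  fin_cases i
  · exact h1
  · exact h2
  · exact Nat.add_pos_left h1 _

theorem lc2_coord_dvd (v : ℕ × ℕ) (i : Fin 3) : coord v i ∣ nn v := by
  unfold nn
  fin_cases i
  · exact Dvd.intro _ (Nat.mul_assoc _ _ _).symm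
  · exact Dvd.intro (v.1 * (v.1 + v.2)) (by show v.2 * (v.1 * (v.1 + v.2)) = _; ring)
  · exact Dvd.intro_left _ rfl

theorem lc2_min_le {v : ℕ × ℕ} (i : Fin 3) : min v.1 v.2 ≤ coord v i := by
  fin_cases i
  · exact min_le_left _ _
  · exact min_le_right _ _
  · exact (min_le_left _ _).trans (Nat.le_add_right _ _)

/-- The logarithm of a coordinate with all primes `≤ Y` is at most that of the smooth part. -/
theorem lc2_log_le {v : ℕ × ℕ} (h : IsTri v) (i : Fin 3) {Y : ℝ}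
    (hY : (gp (coord v i) : ℝ) ≤ Y) :
    Real.log (coord v i) ≤ kl ((nn v).primeFactors.filter (fun q => (q : ℝ) ≤ Y)) (nn v) := by
  have hn0 : nn v ≠ 0 := by
    obtain ⟨h1, h2, _⟩ := h
    unfold nn
    positivity
  have hc0 : coord v i ≠ 0 := (lc2_coord_pos h i).ne'
  have e1 : Real.log (coord v i) = ∑ q ∈ (coord v i).primeFactors,
      ((coord v i).factorization q : ℝ) * Real.log q := by
    rw [Real.log_nat_eq_sum_factorization]
    rfl
  rw [e1]
  unfold kl
  have hsub : (coord v i).primeFactors ⊆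
      (nn v).primeFactors.filter (fun q => (q : ℝ) ≤ Y) := by
    intro q hq
    refine mem_filter.mpr ⟨Nat.primeFactors_mono (lc2_coord_dvd v i) hn0 hq, ?_⟩
    have h1 : q ≤ gp (coord v i) := by
      unfold gp
      exact le_sup_of_le_left (Finset.le_sup (f := id) hq)
    have h2 : (q : ℝ) ≤ gp (coord v i) := by exact_mod_cast h1
    exact h2.trans hY
  have hle := (Nat.factorization_le_iff_dvd hc0 hn0).mpr (lc2_coord_dvd v i)
  calc ∑ q ∈ (coord v i).primeFactors, ((coord v i).factorization q : ℝ) * Real.log q ≤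
        ∑ q ∈ (coord v i).primeFactors, ((nn v).factorization q : ℝ) * Real.log q := by
        refine sum_le_sum fun q hq => ?_
        have h1 : ((coord v i).factorization q : ℝ) ≤ (nn v).factorization q := by
          exact_mod_cast hle q
        exact mul_le_mul_of_nonneg_right h1 (Real.log_natCast_nonneg q)
    _ ≤ _ := Finset.sum_le_sum_of_subset_of_nonneg hsub fun q _ _ =>
        mul_nonneg (Nat.cast_nonneg _) (Real.log_natCast_nonneg q)

theorem lc2_unb {v : ℕ × ℕ} (h : IsTri v) {X ε : ℝ} (hX : (RR v : ℝ) ≤ X)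
    (hε : ε ≤ 1 / 2) : Unb ε (X ^ (1 / 3 : ℝ)) v := by
  obtain ⟨i, hi⟩ := min_thm v h
  have hgp0 : (0 : ℝ) ≤ gp (coord v i) := Nat.cast_nonneg _
  have h1 : (gp (coord v i) : ℝ) ≤ X ^ (1 / 3 : ℝ) := by
    have h2 : ((gp (coord v i) : ℝ) ^ 3) ^ (1 / 3 : ℝ) ≤ X ^ (1 / 3 : ℝ) :=
      Real.rpow_le_rpow (by positivity) (hi.trans hX) (by norm_num)
    have h3 : ((gp (coord v i) : ℝ) ^ 3) ^ (1 / 3 : ℝ) = gp (coord v i) := by
      rw [← Real.rpow_natCast, ← Real.rpow_mul hgp0]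
      norm_num
    rwa [h3] at h2
  have hh0 : 0 ≤ hh v := Real.log_natCast_nonneg _
  by_cases hc : Real.log ((min v.1 v.2 : ℕ) : ℝ) ≤ (1 - ε) * hh v
  · exact Or.inl hc
  · right
    push Not at hc
    have h4 := lc2_log_le h i h1
    have h5 : Real.log ((min v.1 v.2 : ℕ) : ℝ) ≤ Real.log (coord v i) := by
      have h6 : 0 < min v.1 v.2 := lt_min h.1 h.2.1
      refine Real.log_le_log (by exact_mod_cast h6) ?_
      exact_mod_cast lc2_min_le i
    nlinarith

/-- The module LC2. -/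
theorem lc2_thm (h : S_LAR2) : S_LC2 := by
  intro ε hε
  obtain ⟨C, hC1, hC⟩ := h (min ε (1 / 2)) (lt_min hε (by norm_num))
    ((min_le_right _ _).trans (by norm_num))
  refine ⟨C, hC1, fun X F hX hF => ?_⟩
  have hX0 : (0 : ℝ) < X := by linarith
  have hY : 1 ≤ X ^ (1 / 3 : ℝ) := Real.one_le_rpow hX (by norm_num)
  have h1 := hC X (X ^ (1 / 3 : ℝ)) F hX hY fun v hv =>
    ⟨(hF v hv).1, (hF v hv).2.1, lc2_unb (hF v hv).1 (hF v hv).2.1 (min_le_right _ _),
      (hF v hv).2.2⟩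
  refine h1.trans ?_
  rw [mul_assoc, ← Real.rpow_add hX0]
  have h2 : X ^ (1 / 3 + min ε (1 / 2)) ≤ X ^ (1 / 3 + ε) :=
    Real.rpow_le_rpow_of_exponent_le hX (by linarith [min_le_left ε (1 / 2)])
  exact mul_le_mul_of_nonneg_left h2 (by linarith)

end Pool.LH
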